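import Pool.Agent.Helper54.SAW.Arr

set_option autoImplicit false

/-!
# SAW, block A1: merging and splitting two lists of signed labels
-/

namespace Pool.Agent.Helper64.SAW

open Finset Pool.Agent.Helper54.SAW

section A1

variable {ι : Type*}

/-- merging two strands, always extending the shallower one -/
def mg (w : ι → ℕ) (d : ℤ) (L R : List (ι × Bool)) : List (ι × Bool) :=
  match L, R with
  | [], R => R
  | x :: L, [] => x :: L
  | x :: L, y :: R =>
    if d ≤ 0 then x :: mg w (d + (w x.1 : ℤ)) L (y :: R)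
    else y :: mg w (d - (w y.1 : ℤ)) (x :: L) R
termination_by L.length + R.length

theorem mg_nil_left (w : ι → ℕ) (d : ℤ) (R : List (ι × Bool)) : mg w d [] R = R := by
  unfold mg
  rfl

theorem mg_nil_right (w : ι → ℕ) (d : ℤ) (L : List (ι × Bool)) : mg w d L [] = L := by
  cases L <;> (unfold mg; rfl)

theorem mg_left (w : ι → ℕ) {d : ℤ} (hd : d ≤ 0) (x y : ι × Bool) (L R : List (ι × Bool)) :
    mg w d (x :: L) (y :: R) = x :: mg w (d + (w x.1 : ℤ)) L (y :: R) := by
  conv_lhs => unfold mg
  rw [if_pos hd]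

theorem mg_right (w : ι → ℕ) {d : ℤ} (hd : ¬ d ≤ 0) (x y : ι × Bool) (L R : List (ι × Bool)) :
    mg w d (x :: L) (y :: R) = y :: mg w (d - (w y.1 : ℤ)) (x :: L) R := by
  conv_lhs => unfold mg
  rw [if_neg hd]

theorem mg_perm (w : ι → ℕ) (n : ℕ) : ∀ (d : ℤ) (L R : List (ι × Bool)), L.length + R.length = n →
    (mg w d L R).Perm (L ++ R) := by
  induction n with
  | zero =>
    intro d L R h
    have h1 : L = [] := List.length_eq_zero_iff.1 (by omega)
    have h2 : R = [] := List.length_eq_zero_iff.1 (by omega)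
    subst h1 h2
    rw [mg_nil_left]
    simp
  | succ n ih =>
    intro d L R h
    rcases L with _ | ⟨x, L⟩
    · rw [mg_nil_left]
      simp
    rcases R with _ | ⟨y, R⟩
    · rw [mg_nil_right]
      simp
    simp only [List.length_cons] at h
    by_cases hd : d ≤ 0
    · rw [mg_left w hd]
      exact (ih _ L (y :: R) (by simp only [List.length_cons]; omega)).cons x
    · rw [mg_right w hd]
      have h1 := (ih (d - (w y.1 : ℤ)) (x :: L) R (by simp only [List.length_cons]; omega)).cons y
      refine h1.trans ?_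
      exact List.perm_middle.symm

theorem mg_take (w : ι → ℕ) (v : ι → ℤ) (z : ℕ) : ∀ (d : ℤ) (L R : List (ι × Bool)),
    z ≤ L.length → z ≤ R.length → ∃ a b : ℕ, a + b = z ∧
      expl w d ((mg w d L R).take z) = d + Wd w (L.take a) - Wd w (R.take b) ∧
      Ht v ((mg w d L R).take z) = Ht v (L.take a) + Ht v (R.take b) := by
  induction z with
  | zero =>
    intro d L R _ _
    refine ⟨0, 0, rfl, ?_, ?_⟩
    · simp [expl, Wd]
    · simp [Ht]
  | succ z ih =>
    intro d L R hL hR
    rcases L with _ | ⟨x, L⟩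
    · simp at hL
    rcases R with _ | ⟨y, R⟩
    · simp at hR
    simp only [List.length_cons] at hL hR
    by_cases hd : d ≤ 0
    · obtain ⟨a, b, hab, h1, h2⟩ := ih (d + (w x.1 : ℤ)) L (y :: R) (by omega)
        (by simp only [List.length_cons]; omega)
      refine ⟨a + 1, b, by omega, ?_, ?_⟩
      · rw [mg_left w hd, List.take_succ_cons, List.take_succ_cons, Wd_cons]
        simp only [expl, if_pos hd]
        rw [h1]
        ring
      · rw [mg_left w hd, List.take_succ_cons, List.take_succ_cons, Ht_cons, Ht_cons, h2]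
        ring
    · obtain ⟨a, b, hab, h1, h2⟩ := ih (d - (w y.1 : ℤ)) (x :: L) R
        (by simp only [List.length_cons]; omega) (by omega)
      refine ⟨a, b + 1, by omega, ?_, ?_⟩
      · rw [mg_right w hd, List.take_succ_cons, List.take_succ_cons, Wd_cons]
        simp only [expl, if_neg hd]
        rw [h1]
        ring
      · rw [mg_right w hd, List.take_succ_cons, List.take_succ_cons, Ht_cons, Ht_cons, h2]
        ring

theorem mg_inj (w : ι → ℕ) (n : ℕ) : ∀ (d : ℤ) (L R L' R' : List (ι × Bool)),
    L.length + R.length = n → L.length = L'.length → R.length = R'.length →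
    mg w d L R = mg w d L' R' → L = L' ∧ R = R' := by
  induction n with
  | zero =>
    intro d L R L' R' h hL hR _
    have h1 : L = [] := List.length_eq_zero_iff.1 (by omega)
    have h2 : R = [] := List.length_eq_zero_iff.1 (by omega)
    have h3 : L' = [] := List.length_eq_zero_iff.1 (by omega)
    have h4 : R' = [] := List.length_eq_zero_iff.1 (by omega)
    rw [h1, h2, h3, h4]
    exact ⟨rfl, rfl⟩
  | succ n ih =>
    intro d L R L' R' h hL hR he
    rcases L with _ | ⟨x, L⟩
    · have h3 : L' = [] := List.length_eq_zero_iff.1 hL.symm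
      subst h3
      rw [mg_nil_left, mg_nil_left] at he
      exact ⟨rfl, he⟩
    rcases R with _ | ⟨y, R⟩
    · have h3 : R' = [] := List.length_eq_zero_iff.1 hR.symm
      subst h3
      rw [mg_nil_right, mg_nil_right] at he
      exact ⟨he, rfl⟩
    rcases L' with _ | ⟨x', L'⟩
    · simp at hL
    rcases R' with _ | ⟨y', R'⟩
    · simp at hR
    simp only [List.length_cons] at h hL hR
    by_cases hd : d ≤ 0
    · rw [mg_left w hd, mg_left w hd, List.cons.injEq] at he
      obtain ⟨rfl, he⟩ := he
      obtain ⟨h1, h2⟩ := ih _ L (y :: R) L' (y' :: R') (by simp only [List.length_cons]; omega)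
        (by omega) (by simp only [List.length_cons]; omega) he
      exact ⟨by rw [h1], h2⟩
    · rw [mg_right w hd, mg_right w hd, List.cons.injEq] at he
      obtain ⟨rfl, he⟩ := he
      obtain ⟨h1, h2⟩ := ih _ (x :: L) R (x' :: L') R' (by simp only [List.length_cons]; omega)
        (by simp only [List.length_cons]; omega) (by omega) he
      exact ⟨h1, by rw [h2]⟩

theorem Wd_nonneg (w : ι → ℕ) (l : List (ι × Bool)) : 0 ≤ Wd w l := by
  induction l with
  | nil => exact le_rfl
  | cons x l ih =>
    rw [Wd_cons]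
    positivity

theorem length_le_Wd (w : ι → ℕ) (l : List (ι × Bool)) (hl : ∀ x ∈ l, 1 ≤ w x.1) :
    (l.length : ℤ) ≤ Wd w l := by
  induction l with
  | nil => exact le_rfl
  | cons x l ih =>
    rw [Wd_cons, List.length_cons]
    have h1 := ih fun y hy => hl y (List.mem_cons_of_mem x hy)
    have h2 := hl x List.mem_cons_self
    push_cast
    have h3 : (1 : ℤ) ≤ (w x.1 : ℤ) := by exact_mod_cast h2
    linarith

/-- the decoder -/
def dec (w : ι → ℕ) : ℤ → List (ι × Bool) → List (ι × Bool) × List (ι × Bool)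
  | _, [] => ([], [])
  | d, x :: l =>
    if d ≤ 0 then (x :: (dec w (d + (w x.1 : ℤ)) l).1, (dec w (d + (w x.1 : ℤ)) l).2)
    else ((dec w (d - (w x.1 : ℤ)) l).1, x :: (dec w (d - (w x.1 : ℤ)) l).2)

theorem dec_mg (w : ι → ℕ) (n : ℕ) : ∀ (d : ℤ) (L R : List (ι × Bool)),
    L.length + R.length = n → (∀ x ∈ L, 1 ≤ w x.1) → (∀ x ∈ R, 1 ≤ w x.1) →
    d + Wd w L - Wd w R = 0 →
    dec w d (mg w d L R) = (L, R) ∧ expl w d (mg w d L R) = 0 := by
  induction n with
  | zero =>
    intro d L R h _ _ hd
    have h1 : L = [] := List.length_eq_zero_iff.1 (by omega)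
    have h2 : R = [] := List.length_eq_zero_iff.1 (by omega)
    subst h1 h2
    rw [mg_nil_left]
    simp only [Wd_nil, add_zero, sub_zero] at hd
    exact ⟨rfl, hd⟩
  | succ n ih =>
    intro d L R h hL hR hd
    rcases L with _ | ⟨x, L⟩
    · rcases R with _ | ⟨y, R⟩
      · simp at h
      have hyw := hR y List.mem_cons_self
      have h3 : (1 : ℤ) ≤ (w y.1 : ℤ) := by exact_mod_cast hyw
      rw [Wd_nil, Wd_cons] at hd
      have h4 := Wd_nonneg w R
      have hd0 : ¬ d ≤ 0 := by linarith
      have hlen : ([] : List (ι × Bool)).length + R.length = n := by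
        simp only [List.length_nil, List.length_cons] at h ⊢
        omega
      obtain ⟨h5, h6⟩ := ih (d - (w y.1 : ℤ)) [] R hlen (by simp)
        (fun x hx => hR x (List.mem_cons_of_mem y hx))
        (by rw [Wd_nil]; linarith)
      rw [mg_nil_left] at h5 h6 ⊢
      simp only [dec, expl, if_neg hd0]
      rw [h5]
      exact ⟨rfl, h6⟩
    rcases R with _ | ⟨y, R⟩
    · have hxw := hL x List.mem_cons_self
      have h3 : (1 : ℤ) ≤ (w x.1 : ℤ) := by exact_mod_cast hxw
      rw [Wd_nil, Wd_cons] at hd
      have h4 := Wd_nonneg w L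
      have hd0 : d ≤ 0 := by linarith
      have hlen : L.length + ([] : List (ι × Bool)).length = n := by
        simp only [List.length_nil, List.length_cons] at h ⊢
        omega
      obtain ⟨h5, h6⟩ := ih (d + (w x.1 : ℤ)) L [] hlen
        (fun z hz => hL z (List.mem_cons_of_mem x hz)) (by simp)
        (by rw [Wd_nil]; linarith)
      rw [mg_nil_right] at h5 h6 ⊢
      simp only [dec, expl, if_pos hd0]
      rw [h5]
      exact ⟨rfl, h6⟩
    simp only [List.length_cons] at h
    rw [Wd_cons, Wd_cons] at hd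
    by_cases hd0 : d ≤ 0
    · obtain ⟨h5, h6⟩ := ih (d + (w x.1 : ℤ)) L (y :: R) (by simp only [List.length_cons]; omega)
        (fun z hz => hL z (List.mem_cons_of_mem x hz)) hR (by rw [Wd_cons]; linarith)
      rw [mg_left w hd0]
      simp only [dec, expl, if_pos hd0]
      rw [h5]
      exact ⟨rfl, h6⟩
    · obtain ⟨h5, h6⟩ := ih (d - (w y.1 : ℤ)) (x :: L) R (by simp only [List.length_cons]; omega)
        hL (fun z hz => hR z (List.mem_cons_of_mem y hz)) (by rw [Wd_cons]; linarith)
      rw [mg_right w hd0]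
      simp only [dec, expl, if_neg hd0]
      rw [h5]
      exact ⟨rfl, h6⟩

variable [Fintype ι] [DecidableEq ι]

omit [Fintype ι] in
theorem mem_supp {l : List (ι × Bool)} {x : ι × Bool} (hx : x ∈ l) : x.1 ∈ supp l := by
  unfold supp
  rw [List.mem_toFinset]
  exact List.mem_map_of_mem hx

theorem arr_w {w : ι → ℕ} {T : Finset ι} (hw : ∀ i ∈ T, 1 ≤ w i) {l : List (ι × Bool)}
    (hl : l ∈ arr T) {x : ι × Bool} (hx : x ∈ l) : 1 ≤ w x.1 := by
  apply hw
  rw [← (mem_arr.1 hl).2]
  exact mem_supp hx

theorem explore (w : ι → ℕ) (v : ι → ℤ) (T : Finset ι) (hw : ∀ i ∈ T, 1 ≤ w i)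
    (j m : ℕ) (hj : m ≤ j) (hm : j + m ≤ T.card) :
    nVal w v T j 1 ≤ nPos w v T m := by
  classical
  unfold nVal nPos
  apply Finset.card_le_card_of_injOn fun p => mg w 0 (p.take j).reverse (p.drop j)
  · intro p hp
    rw [Finset.mem_coe, Finset.mem_filter] at hp ⊢
    obtain ⟨hp, hval⟩ := hp
    have hlen := length_arr hp
    have hperm : (mg w 0 (p.take j).reverse (p.drop j)).Perm p := by
      refine (mg_perm w _ 0 _ _ rfl).trans ?_
      have h1 : ((p.take j).reverse ++ p.drop j).Perm (p.take j ++ p.drop j) :=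
        (List.reverse_perm _).append_right _
      rwa [List.take_append_drop] at h1
    refine ⟨arr_perm hp hperm, ?_⟩
    intro z hz1 hzm hz0
    have hL : (p.take j).reverse.length = j := by
      rw [List.length_reverse, List.length_take]
      omega
    have hR : (p.drop j).length = T.card - j := by
      rw [List.length_drop]
      omega
    obtain ⟨a, b, hab, h1, h2⟩ := mg_take w v z 0 (p.take j).reverse (p.drop j)
      (by omega) (by omega)
    rw [hz0] at h1
    have hWd : Wd w ((p.take j).reverse.take a) = Wd w ((p.drop j).take b) := by linarith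
    have hrev : ((p.take j).reverse.take a).Perm ((p.take j).drop (j - a)) := by
      rw [List.take_reverse, List.length_take]
      have h3 : min j p.length = j := by omega
      rw [h3]
      exact List.reverse_perm _
    have hwL : ∀ x ∈ (p.take j).reverse.take a, 1 ≤ w x.1 := fun x hx =>
      arr_w hw hp (List.mem_of_mem_take (List.mem_reverse.1 (List.mem_of_mem_take hx)))
    have hwR : ∀ x ∈ (p.drop j).take b, 1 ≤ w x.1 := fun x hx =>
      arr_w hw hp (List.mem_of_mem_drop (List.mem_of_mem_take hx))
    have ha1 : 1 ≤ a := by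
      by_contra hcon
      have ha0 : a = 0 := by omega
      have h4 := length_le_Wd w _ hwR
      rw [← hWd, ha0, List.take_zero, Wd_nil, List.length_take] at h4
      have : min b (p.drop j).length = 0 := by omega
      omega
    have hb1 : 1 ≤ b := by
      by_contra hcon
      have hb0 : b = 0 := by omega
      have h4 := length_le_Wd w _ hwL
      rw [hWd, hb0, List.take_zero, Wd_nil, List.length_take] at h4
      have : min a (p.take j).reverse.length = 0 := by omega
      omega
    rw [h2, Ht_perm v hrev]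
    have h5 := hval a b ha1 (by omega) hb1 (by omega) (by rw [← Wd_perm w hrev]; exact hWd)
    rwa [one_mul] at h5
  · intro p hp p' hp' he
    rw [Finset.mem_coe, Finset.mem_filter] at hp hp'
    have hlen := length_arr hp.1
    have hlen' := length_arr hp'.1
    simp only at he
    obtain ⟨h1, h2⟩ := mg_inj w _ 0 _ _ _ _ rfl
      (by rw [List.length_reverse, List.length_reverse, List.length_take, List.length_take, hlen,
        hlen']) (by rw [List.length_drop, List.length_drop, hlen, hlen']) he
    rw [← List.take_append_drop j p, ← List.take_append_drop j p', h2,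
      List.reverse_injective h1]

theorem sumKz_fix (w : ι → ℕ) (T : Finset ι) (hw : ∀ i ∈ T, 1 ≤ w i) (m z : ℕ)
    (hm : m ≤ T.card) (hz : z ≤ m) :
    ∑ p ∈ (Icc 1 m ×ˢ Icc 1 m).filter (fun p : ℕ × ℕ => p.1 + p.2 = z), npi w T p.1 p.2 ≤
      ((arr T).filter fun l => expl w 0 (l.take z) = 0).card := by
  classical
  unfold npi
  rw [← Finset.card_sigma]
  apply Finset.card_le_card_of_injOn fun q : (_ : ℕ × ℕ) × List (ι × Bool) =>
    mg w 0 (q.2.take q.1.1) ((q.2.drop q.1.1).take q.1.2) ++ q.2.drop z
  · rintro ⟨⟨a, b⟩, l⟩ hq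
    simp only [Finset.coe_sigma, Set.mem_sigma_iff, Finset.mem_coe, Finset.mem_filter,
      Finset.mem_product, Finset.mem_Icc] at hq
    obtain ⟨⟨⟨⟨ha, _⟩, ⟨hb, _⟩⟩, hab⟩, hl, hWd⟩ := hq
    rw [Finset.mem_coe, Finset.mem_filter]
    simp only
    have hlen := length_arr hl
    have hsplit : l = l.take a ++ ((l.drop a).take b ++ l.drop z) := by
      have h1 : (l.drop a).take b ++ (l.drop a).drop b = l.drop a := List.take_append_drop _ _
      rw [List.drop_drop, hab] at h1
      rw [h1, List.take_append_drop]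
    have hperm := mg_perm w _ 0 (l.take a) ((l.drop a).take b) rfl
    have hml : (mg w 0 (l.take a) ((l.drop a).take b)).length = z := by
      rw [hperm.length_eq, List.length_append, List.length_take, List.length_take,
        List.length_drop]
      omega
    constructor
    · refine arr_perm hl ?_
      conv_rhs => rw [hsplit]
      rw [← List.append_assoc]
      exact hperm.append_right _
    · rw [List.take_append_of_le_length (by omega), ← hml, List.take_length]
      refine (dec_mg w _ 0 _ _ rfl (fun x hx => arr_w hw hl (List.mem_of_mem_take hx))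
        (fun x hx => arr_w hw hl (List.mem_of_mem_drop (List.mem_of_mem_take hx)))
        (by rw [hWd]; ring)).2
  · rintro ⟨⟨a, b⟩, l⟩ hq ⟨⟨a', b'⟩, l'⟩ hq' he
    simp only [Finset.coe_sigma, Set.mem_sigma_iff, Finset.mem_coe, Finset.mem_filter,
      Finset.mem_product, Finset.mem_Icc] at hq hq'
    obtain ⟨⟨⟨⟨ha, _⟩, ⟨hb, _⟩⟩, hab⟩, hl, hWd⟩ := hq
    obtain ⟨⟨⟨⟨ha', _⟩, ⟨hb', _⟩⟩, hab'⟩, hl', hWd'⟩ := hq'
    simp only at he hab hab' hWd hWd'
    have hlen := length_arr hl
    have hlen' := length_arr hl'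
    have hml : (mg w 0 (l.take a) ((l.drop a).take b)).length = z := by
      rw [(mg_perm w _ 0 (l.take a) ((l.drop a).take b) rfl).length_eq, List.length_append,
        List.length_take, List.length_take, List.length_drop]
      omega
    have hml' : (mg w 0 (l'.take a') ((l'.drop a').take b')).length = z := by
      rw [(mg_perm w _ 0 (l'.take a') ((l'.drop a').take b') rfl).length_eq, List.length_append,
        List.length_take, List.length_take, List.length_drop]
      omega
    obtain ⟨h1, h2⟩ := List.append_inj he (by rw [hml, hml'])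
    have hd := (dec_mg w _ 0 _ _ rfl (fun x hx => arr_w hw hl (List.mem_of_mem_take hx))
        (fun x hx => arr_w hw hl (List.mem_of_mem_drop (List.mem_of_mem_take hx)))
        (show (0 : ℤ) + Wd w (l.take a) - Wd w ((l.drop a).take b) = 0 by rw [hWd]; ring)).1
    have hd' := (dec_mg w _ 0 _ _ rfl (fun x hx => arr_w hw hl' (List.mem_of_mem_take hx))
        (fun x hx => arr_w hw hl' (List.mem_of_mem_drop (List.mem_of_mem_take hx)))
        (show (0 : ℤ) + Wd w (l'.take a') - Wd w ((l'.drop a').take b') = 0 by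
          rw [hWd']; ring)).1
    rw [h1, hd', Prod.mk.injEq] at hd
    obtain ⟨h3, h4⟩ := hd
    have h5 := congrArg List.length h3
    rw [List.length_take, List.length_take] at h5
    have haa : a = a' := by omega
    subst haa
    have hbb : b = b' := by omega
    subst hbb
    have h6 : l = l' := by
      have hs : ∀ l : List (ι × Bool), l = l.take a ++ ((l.drop a).take b ++ l.drop z) := by
        intro l
        have h1 : (l.drop a).take b ++ (l.drop a).drop b = l.drop a := List.take_append_drop _ _
        rw [List.drop_drop, hab] at h1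
        rw [h1, List.take_append_drop]
      rw [hs l, hs l', ← h3, ← h4, h2]
    rw [h6]

theorem sumKz_ge (w : ι → ℕ) (T : Finset ι) (hw : ∀ i ∈ T, 1 ≤ w i) (m : ℕ) (hm : m ≤ T.card) :
    ∑ a ∈ Icc 1 m, ∑ b ∈ Icc 1 m, (if a + b ≤ m then npi w T a b else 0)
      ≤ ∑ l ∈ arr T, Kz w m l := by
  classical
  have h1 : ∑ l ∈ arr T, Kz w m l =
      ∑ z ∈ Icc 1 m, ((arr T).filter fun l => expl w 0 (l.take z) = 0).card := by
    unfold Kz
    simp_rw [Finset.card_filter]
    exact Finset.sum_comm
  have h2 : ∑ a ∈ Icc 1 m, ∑ b ∈ Icc 1 m, (if a + b ≤ m then npi w T a b else 0) =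
      ∑ z ∈ Icc 1 m, ∑ p ∈ (Icc 1 m ×ˢ Icc 1 m).filter (fun p : ℕ × ℕ => p.1 + p.2 = z),
        npi w T p.1 p.2 := by
    rw [← Finset.sum_product']
    simp_rw [Finset.sum_filter]
    rw [Finset.sum_comm]
    apply Finset.sum_congr rfl
    rintro ⟨a, b⟩ hp
    rw [Finset.mem_product, Finset.mem_Icc, Finset.mem_Icc] at hp
    simp only at hp ⊢
    by_cases h : a + b ≤ m
    · rw [if_pos h, Finset.sum_ite_eq, if_pos (Finset.mem_Icc.2 ⟨by omega, h⟩)]
    · rw [if_neg h, Finset.sum_ite_eq, if_neg]
      rw [Finset.mem_Icc]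
      omega
  rw [h1, h2]
  exact Finset.sum_le_sum fun z hz => sumKz_fix w T hw m z hm (Finset.mem_Icc.1 hz).2

end A1

end Pool.Agent.Helper64.SAW
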